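import Mathlib.Algebra.Group.Pi.Basic
import Mathlib.Algebra.Group.Subgroup.Defs
import Mathlib.Data.Finset.Card
import Mathlib.Data.Nat.Log
import Mathlib.Order.Filter.Ultrafilter.Basic
import Mathlib.Order.Filter.Ultrafilter.Defs
import Mathlib.Order.Filter.AtTopBot.Basic
import Mathlib.Tactic.Common
import Mathlib.Tactic.Linarith
import Mathlib.Tactic.Group

/-!
# Combinatorial core: stripping factors `y_l` from elements of a product of groups
-/

namespace X126.Dtc

variable {F : ℕ → Type} [∀ i, Group (F i)] (a c : ∀ i, F i)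

/-- `y_k = (a_0, ..., a_{k-1}, c_k, 1, 1, ...)` -/
def yy (k : ℕ) : ∀ i, F i := fun i => if i < k then a i else if i = k then c i else 1

theorem yy_lt {k i : ℕ} (h : i < k) : yy a c k i = a i := by
  unfold yy; rw [if_pos h]

theorem yy_self (k : ℕ) : yy a c k k = c k := by
  unfold yy; rw [if_neg (lt_irrefl k), if_pos rfl]

theorem yy_gt {k i : ℕ} (h : k < i) : yy a c k i = 1 := by
  unfold yy; rw [if_neg (by omega), if_neg (by omega)]

open Classical in
/-- stripped indices -/
noncomputable def Lb : ℕ → (∀ i, F i) → Finset ℕ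
  | 0, _ => ∅
  | n + 1, g => if g n = 1 then Lb n g else
      if g n = c n then insert n (Lb n (g * (yy a c n)⁻¹)) else ∅

open Classical in
/-- marked indices -/
noncomputable def Mb : ℕ → (∀ i, F i) → Finset ℕ
  | 0, _ => ∅
  | n + 1, g => if g n = 1 then Mb n g else
      if g n = c n then insert n (Mb n (g * (yy a c n)⁻¹)) else {n}

theorem Lb_lt : ∀ (n : ℕ) (g : ∀ i, F i), ∀ l ∈ Lb a c n g, l < n
  | 0, g, l, h => by simp [Lb] at h
  | n + 1, g, l, h => by
    unfold Lb at h
    split_ifs at h with h1 h2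
    · exact (Lb_lt n g l h).trans (Nat.lt_succ_self n)
    · rcases Finset.mem_insert.1 h with h | h
      · omega
      · exact (Lb_lt n _ l h).trans (Nat.lt_succ_self n)
    · simp at h

theorem notMem_Lb (n : ℕ) (g : ∀ i, F i) : n ∉ Lb a c n g := fun h =>
  lt_irrefl _ (Lb_lt a c n g n h)

theorem card_Mb : ∀ (n : ℕ) (g : ∀ i, F i), (Mb a c n g).card ≤ (Lb a c n g).card + 1
  | 0, g => by simp [Mb]
  | n + 1, g => by
    unfold Mb Lb
    split_ifs with h1 h2
    · exact card_Mb n g
    · rw [Finset.card_insert_of_notMem (notMem_Lb a c n _)]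
      exact (Finset.card_insert_le _ _).trans (Nat.add_le_add_right (card_Mb n _) 1)
    · simp

theorem Lb_stable (m : ℕ) (g : ∀ i, F i) (hg : ∀ i, m ≤ i → g i = 1) :
    ∀ N, m ≤ N → Lb a c N g = Lb a c m g := by
  intro N hN
  induction N, hN using Nat.le_induction with
  | base => rfl
  | succ N hN ih =>
    rw [Lb, if_pos (hg N hN), ih]

theorem filter_Lb_empty (k n : ℕ) (g : ∀ i, F i) (h : n ≤ k + 1) :
    (Lb a c n g).filter (k < ·) = ∅ := by
  apply Finset.filter_eq_empty_iff.2
  intro l hl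
  have := Lb_lt a c n g l hl
  omega

theorem conj_eq (x z y : ∀ i, F i) : x * z * y⁻¹ = (x * y⁻¹) * (y * z * y⁻¹) := by
  group

/-- Lemma A -/
theorem lemA (k : ℕ) : ∀ (N : ℕ) (x z : ∀ i, F i), (∀ i, k < i → z i = 1) →
    (Lb a c N (x * z)).filter (k < ·) = (Lb a c N x).filter (k < ·)
  | 0, x, z, _ => by simp [Lb]
  | n + 1, x, z, hz => by
    by_cases hn : n ≤ k
    · rw [filter_Lb_empty a c k (n+1) _ (by omega), filter_Lb_empty a c k (n+1) _ (by omega)]
    · have hn' : k < n := by omega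
      have hx : (x * z) n = x n := by rw [Pi.mul_apply, hz n hn', mul_one]
      have hz' : ∀ i, k < i → ((yy a c n) * z * (yy a c n)⁻¹) i = 1 := by
        intro i hi
        rw [Pi.mul_apply, Pi.mul_apply, hz i hi, mul_one, Pi.inv_apply, mul_inv_cancel]
      rw [Lb, Lb, hx]
      split_ifs with h1 h2
      · exact lemA k n x z hz
      · rw [Finset.filter_insert, Finset.filter_insert, if_pos hn', if_pos hn', conj_eq,
          lemA k n _ _ hz']
      · rfl

/-- Lemma B -/
theorem lemB (k : ℕ) (hc : c k ≠ 1) (x : ∀ i, F i) (hx : ∀ i, k ≤ i → x i = 1) :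
    Lb a c (k + 1) (x * yy a c k) = insert k (Lb a c k x) := by
  have h1 : (x * yy a c k) k = c k := by
    rw [Pi.mul_apply, hx k le_rfl, one_mul, yy_self]
  rw [Lb, h1, if_neg hc, if_pos rfl]
  congr 2
  group

/-- Lemma C -/
theorem lemC (k : ℕ) (hc : c k ≠ 1) : ∀ (N : ℕ), k < N → ∀ (x z : ∀ i, F i) (s : ℕ),
    (∀ i, k < i → z i = 1) → z k = a k ^ s * c k * (a k ^ s)⁻¹ → k ∉ Mb a c N x →
    a k ^ (s + ((Lb a c N x).filter (k < ·)).card) * c k *
      (a k ^ (s + ((Lb a c N x).filter (k < ·)).card))⁻¹ ≠ c k →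
    Lb a c N (x * z) = (Lb a c N x).filter (k < ·)
  | 0, h, _, _, _, _, _, _, _ => absurd h (by omega)
  | n + 1, hk, x, z, s, hz, hzk, hM, hne => by
    by_cases hn : n = k
    · subst hn
      rw [filter_Lb_empty a c n (n+1) _ le_rfl] at hne ⊢
      have hx1 : x n = 1 := by
        by_contra hx
        apply hM
        rw [Mb, if_neg hx]
        split_ifs <;> simp
      have hxz : (x * z) n = a n ^ s * c n * (a n ^ s)⁻¹ := by
        rw [Pi.mul_apply, hx1, one_mul, hzk]
      rw [Finset.card_empty, Nat.add_zero] at hne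
      rw [Lb, hxz, if_neg, if_neg hne]
      intro h
      apply hc
      have h2 : c n = (a n ^ s)⁻¹ * (a n ^ s * c n * (a n ^ s)⁻¹) * a n ^ s := by group
      rw [h2, h]
      group
    · have hn' : k < n := by omega
      have hx : (x * z) n = x n := by rw [Pi.mul_apply, hz n hn', mul_one]
      have hz' : ∀ i, k < i → ((yy a c n) * z * (yy a c n)⁻¹) i = 1 := by
        intro i hi
        rw [Pi.mul_apply, Pi.mul_apply, hz i hi, mul_one, Pi.inv_apply, mul_inv_cancel]
      have hzk' : ((yy a c n) * z * (yy a c n)⁻¹) k =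
          a k ^ (s + 1) * c k * (a k ^ (s + 1))⁻¹ := by
        rw [Pi.mul_apply, Pi.mul_apply, Pi.inv_apply, yy_lt a c hn', hzk, pow_succ']
        group
      rw [Lb] at hne ⊢
      rw [Lb]
      rw [Mb] at hM
      rw [hx]
      split_ifs at hne hM ⊢ with h1 h2
      · exact lemC k hc n hn' x z s hz hzk hM hne
      · rw [Finset.filter_insert, if_pos hn'] at hne ⊢
        rw [Finset.card_insert_of_notMem (by
          intro h
          exact notMem_Lb a c n _ (Finset.mem_filter.1 h).1)] at hne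
        rw [conj_eq]
        have ih := lemC k hc n hn' (x * (yy a c n)⁻¹) _ (s + 1) hz' hzk'
          (fun h => hM (Finset.mem_insert_of_mem h)) (by
            have e : s + 1 + ((Lb a c n (x * (yy a c n)⁻¹)).filter (k < ·)).card =
              s + (((Lb a c n (x * (yy a c n)⁻¹)).filter (k < ·)).card + 1) := by omega
            rw [e]
            exact hne)
        rw [ih]
      · rfl

/-- Slowly varying threshold along a nonprincipal ultrafilter on `ℕ`. -/
theorem exists_tau (q : Ultrafilter ℕ) (hq : ∀ d : ℕ, ∀ᶠ n in q, d ≤ n) :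
    ∃ τ : ℕ → ℕ, (∀ D : ℕ, ∀ᶠ n in q, ∀ m, n ≤ m + D → m ≤ n + D → τ m = τ n) ∧
      (∀ D : ℕ, ∀ᶠ n in q, D ≤ τ n) := by
  by_cases h : ∀ D : ℕ, ∀ᶠ n in q, Nat.log 4 (n - D) = Nat.log 4 (n + D)
  · refine ⟨Nat.log 4, ?_, ?_⟩
    · intro D
      filter_upwards [h D] with n hn m h1 h2
      have e1 : Nat.log 4 (n - D) ≤ Nat.log 4 m := Nat.log_mono_right (by omega)
      have e2 : Nat.log 4 m ≤ Nat.log 4 (n + D) := Nat.log_mono_right (by omega)
      have e3 : Nat.log 4 (n - D) ≤ Nat.log 4 n := Nat.log_mono_right (by omega)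
      have e4 : Nat.log 4 n ≤ Nat.log 4 (n + D) := Nat.log_mono_right (by omega)
      omega
    · intro D
      filter_upwards [hq (4 ^ D)] with n hn
      exact Nat.le_log_of_pow_le (by norm_num) hn
  · push Not at h
    obtain ⟨D0, hD0⟩ := h
    have hD1 : ∀ᶠ n in q, Nat.log 4 (n - D0) ≠ Nat.log 4 (n + D0) :=
      Ultrafilter.eventually_not.2 (by simpa using hD0)
    refine ⟨fun n => Nat.log 4 (2 * n), ?_, ?_⟩
    · intro D
      filter_upwards [hD1, hq (3 * D0 + 2 * D + 1)] with n hn hbig m h1 h2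
      have key : ∀ m, n ≤ m + D → m ≤ n + D → Nat.log 4 (2 * m) = Nat.log 4 (n + D0) := by
        intro m h1 h2
        have l1 : Nat.log 4 (n - D0) ≤ Nat.log 4 (n + D0) := Nat.log_mono_right (by omega)
        have l2 : Nat.log 4 (n - D0) < Nat.log 4 (n + D0) := lt_of_le_of_ne l1 hn
        have p1 : n - D0 < 4 ^ Nat.log 4 (n + D0) := Nat.lt_pow_of_log_lt (by norm_num) l2
        have p2 : 4 ^ Nat.log 4 (n + D0) ≤ n + D0 := Nat.pow_log_le_self 4 (by omega)
        apply Nat.log_eq_of_pow_le_of_lt_pow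
        · omega
        · rw [pow_succ]
          omega
      rw [key m h1 h2, key n (by omega) (by omega)]
    · intro D
      filter_upwards [hq (4 ^ D)] with n hn
      exact Nat.le_log_of_pow_le (by norm_num) (by omega)

end X126.Dtc
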