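import Mathlib.Algebra.Group.Subgroup.Basic
import Mathlib.Data.Set.Finite.Lemmas
import Mathlib.Order.Filter.Ultrafilter.Basic
import Mathlib.Order.Filter.Cofinite
import Mathlib.Algebra.Group.Conj
import Mathlib.Order.Interval.Finset.Nat
import Mathlib.Algebra.Group.Nat.Even
import Pool.Agent.X126.Dtc.Core

/-!
# The group of finitely supported elements, and the two products
-/

namespace X126.Dtc

open Filter

/-- Finitely supported elements of a product of groups. -/
def fs (F : ℕ → Type) [∀ i, Group (F i)] : Subgroup (∀ i, F i) where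
  carrier := {f | ∃ N, ∀ i, N ≤ i → f i = 1}
  one_mem' := ⟨0, fun _ _ => rfl⟩
  mul_mem' := by
    rintro f g ⟨N, hN⟩ ⟨M, hM⟩
    exact ⟨max N M, fun i hi => by
      rw [Pi.mul_apply, hN i ((le_max_left _ _).trans hi), hM i ((le_max_right _ _).trans hi),
        mul_one]⟩
  inv_mem' := by
    rintro f ⟨N, hN⟩
    exact ⟨N, fun i hi => by rw [Pi.inv_apply, hN i hi, inv_one]⟩

variable {F : ℕ → Type} [∀ i, Group (F i)] (a c : ∀ i, F i)

open Classical in
/-- support bound -/
noncomputable def KK (g : fs F) : ℕ := Nat.find g.2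

theorem KK_spec (g : fs F) : ∀ i, KK g ≤ i → (g : ∀ i, F i) i = 1 := by
  classical
  exact Nat.find_spec g.2

theorem KK_min (g : fs F) {N : ℕ} (h : ∀ i, N ≤ i → (g : ∀ i, F i) i = 1) : KK g ≤ N := by
  classical
  exact Nat.find_min' g.2 h

theorem KK_top (g : fs F) {n : ℕ} (h : KK g = n + 1) : (g : ∀ i, F i) n ≠ 1 := by
  intro h1
  have : KK g ≤ n := KK_min g (fun i hi => by
    rcases Nat.lt_or_ge n i with h2 | h2
    · exact KK_spec g i (by omega)
    · have : i = n := by omega
      rw [this, h1])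
  omega

/-- the set of stripped indices -/
noncomputable def LL (g : fs F) : Finset ℕ := Lb a c (KK g) g

theorem LL_eq (g : fs F) {N : ℕ} (h : ∀ i, N ≤ i → (g : ∀ i, F i) i = 1) :
    LL a c g = Lb a c N g :=
  (Lb_stable a c (KK g) g (KK_spec g) N (KK_min g h)).symm

theorem finite_le [∀ i, Finite (F i)] (N : ℕ) :
    {g : fs F | ∀ i, N ≤ i → (g : ∀ i, F i) i = 1}.Finite := by
  apply Set.Finite.of_finite_image (f := fun (g : fs F) (i : Fin N) => (g : ∀ i, F i) i)
    (Set.toFinite _)
  intro g hg g' hg' h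
  apply Subtype.ext
  funext i
  rcases Nat.lt_or_ge i N with hi | hi
  · exact congrFun h ⟨i, hi⟩
  · rw [hg i hi, hg' i hi]

/-- `y_k` as an element of the group -/
def yG (k : ℕ) : fs F := ⟨yy a c k, k + 1, fun _ hi => yy_gt a c (by omega)⟩

variable {a c}

theorem mem_of_ne_pure {G : Type*} {u : Ultrafilter G} (hu : ∀ x, u ≠ pure x) {s : Set G}
    (hs : s.Finite) : ∀ᶠ x in u, x ∉ s := by
  by_contra h
  rw [← Ultrafilter.eventually_not] at h
  simp only [not_not] at h
  obtain ⟨x, _, hx⟩ := Ultrafilter.eq_pure_of_finite_mem hs h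
  exact hu x hx

/-- main lemma -/
theorem key [∀ i, Finite (F i)] (hc : ∀ i, c i ≠ 1)
    (hac : ∀ t : ℕ, 1 ≤ t → ∀ᶠ k in atTop, a k ^ t * c k * (a k ^ t)⁻¹ ≠ c k)
    (u : Ultrafilter (fs F)) (hu : ∀ x, u ≠ pure x) (p : Ultrafilter ℕ) (hp : (p : Filter ℕ) ≤ atTop) :
    ∃ A : Set (fs F), ¬ ((∀ᶠ x in u, ∀ᶠ k in p, x * yG a c k ∈ A) ↔
      (∀ᶠ k in p, ∀ᶠ x in u, x * yG a c k ∈ A)) := by
  -- support of products
  have hsupp : ∀ (x : fs F) (k N : ℕ), KK x ≤ N → k < N →
      ∀ i, N ≤ i → ((x * yG a c k : fs F) : ∀ i, F i) i = 1 := by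
    intro x k N h1 h2 i hi
    have e1 : (x : ∀ i, F i) i = 1 := KK_spec x i (h1.trans hi)
    have e2 : yy a c k i = 1 := yy_gt a c (by omega)
    show (x : ∀ i, F i) i * yy a c k i = 1
    rw [e1, e2, mul_one]
  have hcoe : ∀ (x : fs F) (k : ℕ), ((x * yG a c k : fs F) : ∀ i, F i) = (x : ∀ i, F i) * yy a c k :=
    fun _ _ => rfl
  -- box side
  have hbox : ∀ (x : fs F) (k : ℕ), KK x ≤ k → LL a c (x * yG a c k) = insert k (LL a c x) ∧
      k ∉ LL a c x := by
    intro x k hk
    have h1 : LL a c (x * yG a c k) = Lb a c (k + 1) ((x : ∀ i, F i) * yy a c k) :=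
      LL_eq a c _ (hsupp x k (k+1) (by omega) (by omega))
    have h2 : LL a c x = Lb a c k x := LL_eq a c x (fun i hi => KK_spec x i (hk.trans hi))
    rw [h1, h2, lemB a c k (hc k) x (fun i hi => KK_spec x i (hk.trans hi))]
    exact ⟨rfl, notMem_Lb a c k _⟩
  by_cases hbd : ∃ d, ∀ᶠ x in u, (LL a c x).card = d
  · obtain ⟨d, hd⟩ := hbd
    refine ⟨{g | (LL a c g).card = d + 1}, ?_⟩
    intro hiff
    have hb : ∀ᶠ x in u, ∀ᶠ k in p, x * yG a c k ∈ {g : fs F | (LL a c g).card = d + 1} := by
      filter_upwards [hd] with x hx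
      filter_upwards [hp (eventually_ge_atTop (KK x))] with k hk
      obtain ⟨h1, h2⟩ := hbox x k hk
      show (LL a c (x * yG a c k)).card = d + 1
      rw [h1, Finset.card_insert_of_notMem h2, hx]
    have hdia := hiff.1 hb
    -- bad indices
    have hbad : {k | ∀ᶠ x : fs F in u, k ∈ Mb a c (KK x) (x : ∀ i, F i)}.Finite := by
      by_contra hinf
      obtain ⟨s, hs1, hs2⟩ := Set.Infinite.exists_subset_card_eq hinf (d + 2)
      have hall : ∀ᶠ x : fs F in u, ∀ k ∈ s, k ∈ Mb a c (KK x) (x : ∀ i, F i) :=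
        (Filter.eventually_all_finset s).2 (fun k hk => hs1 hk)
      obtain ⟨x, hx1, hx2⟩ := (hall.and hd).exists
      have h1 : s ⊆ Mb a c (KK x) (x : ∀ i, F i) := hx1
      have h2 := Finset.card_le_card h1
      have h3 := card_Mb a c (KK x) (x : ∀ i, F i)
      have h4 : (Lb a c (KK x) (x : ∀ i, F i)).card = d := hx2
      omega
    have hgood : ∀ᶠ k in p, ¬ ∀ᶠ x : fs F in u, k ∈ Mb a c (KK x) (x : ∀ i, F i) := by
      obtain ⟨B, hB⟩ := hbad.bddAbove
      filter_upwards [hp (eventually_gt_atTop B)] with k hk h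
      exact absurd (hB h) (by omega)
    have hord : ∀ᶠ k in p, ∀ t ∈ Finset.Icc 1 d, a k ^ t * c k * (a k ^ t)⁻¹ ≠ c k := by
      apply hp
      exact (Filter.eventually_all_finset _).2 (fun t ht => hac t (Finset.mem_Icc.1 ht).1)
    obtain ⟨k, hk1, hk2, hk3⟩ := (hdia.and (hgood.and hord)).exists
    rw [← Ultrafilter.eventually_not] at hk2
    have hk4 := mem_of_ne_pure hu (finite_le (F := F) (k + 1))
    obtain ⟨x, hx1, hx2, hx3, hx4⟩ := (hk1.and (hk2.and (hd.and hk4))).exists
    have hx1' : (LL a c (x * yG a c k)).card = d + 1 := hx1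
    have hKx : k + 1 < KK x := by
      by_contra h
      exact hx4 (fun i hi => KK_spec x i (by omega))
    have h1 : LL a c (x * yG a c k) = Lb a c (KK x) ((x : ∀ i, F i) * yy a c k) :=
      LL_eq a c _ (hsupp x k (KK x) le_rfl (by omega))
    by_cases ht : 1 ≤ ((Lb a c (KK x) (x : ∀ i, F i)).filter (k < ·)).card
    · have h2 := lemC a c k (hc k) (KK x) (by omega) x (yy a c k) 0
        (fun i hi => yy_gt a c hi) (by rw [yy_self]; simp) hx2 (by
          rw [Nat.zero_add]
          apply hk3
          rw [Finset.mem_Icc]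
          refine ⟨ht, (Finset.card_filter_le _ _).trans ?_⟩
          exact hx3.le)
      rw [h1, h2] at hx1'
      have h3 : ((Lb a c (KK x) (x : ∀ i, F i)).filter (k < ·)).card ≤ d :=
        (Finset.card_filter_le _ _).trans hx3.le
      omega
    · obtain ⟨n, hn⟩ : ∃ n, KK x = n + 1 := ⟨KK x - 1, by omega⟩
      have hxn := KK_top x hn
      have hxc : (x : ∀ i, F i) n ≠ c n := by
        intro h
        apply ht
        rw [Nat.one_le_iff_ne_zero, Finset.card_ne_zero]
        refine ⟨n, ?_⟩
        rw [Finset.mem_filter]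
        refine ⟨?_, by omega⟩
        rw [hn, Lb, if_neg hxn, if_pos h]
        exact Finset.mem_insert_self _ _
      have h3 : ((x : ∀ i, F i) * yy a c k) n = (x : ∀ i, F i) n := by
        rw [Pi.mul_apply, yy_gt a c (by omega), mul_one]
      rw [h1, hn, Lb, h3, if_neg hxn, if_neg hxc] at hx1'
      simp at hx1'
  · push Not at hbd
    have hq : ∀ d : ℕ, ∀ᶠ n in (u.map (fun x => (LL a c x).card)), d ≤ n := by
      intro d
      have h1 : ∀ᶠ x in u, ∀ e ∈ Finset.range d, (LL a c x).card ≠ e :=
        (Filter.eventually_all_finset _).2 (fun e _ => by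
          have := hbd e
          exact Ultrafilter.eventually_not.2 (by simpa using this))
      show ∀ᶠ x in u, d ≤ (LL a c x).card
      filter_upwards [h1] with x hx
      by_contra h
      exact hx _ (Finset.mem_range.2 (by omega)) rfl
    obtain ⟨τ, hτ1, hτ2⟩ := exists_tau _ hq
    have hτ1' : ∀ D : ℕ, ∀ᶠ x in u, ∀ m, (LL a c x).card ≤ m + D → m ≤ (LL a c x).card + D →
        τ m = τ (LL a c x).card := hτ1
    have hτ2' : ∀ D : ℕ, ∀ᶠ x in u, D ≤ τ (LL a c x).card := hτ2
    let E : fs F → ℕ := fun g => ((LL a c g).filter (τ (LL a c g).card < ·)).card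
    have hEbox : ∀ᶠ x in u, ∀ᶠ k in p, E (x * yG a c k) = E x + 1 := by
      filter_upwards [hτ1' 1] with x hx
      filter_upwards [hp (eventually_ge_atTop (KK x)),
        hp (eventually_gt_atTop (τ (LL a c x).card))] with k hk hk2
      obtain ⟨h1, h2⟩ := hbox x k hk
      show ((LL a c (x * yG a c k)).filter (τ (LL a c (x * yG a c k)).card < ·)).card = _
      rw [h1, Finset.card_insert_of_notMem h2, hx _ (by omega) (by omega), Finset.filter_insert,
        if_pos hk2, Finset.card_insert_of_notMem (fun h => h2 (Finset.mem_filter.1 h).1)]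
    have hEdia : ∀ᶠ k in p, ∀ᶠ x in u, E (x * yG a c k) = E x := by
      refine Eventually.of_forall (fun k => ?_)
      filter_upwards [hτ1' (k + 1), hτ2' k] with x hx hxk
      have hA : (LL a c (x * yG a c k)).filter (k < ·) = (LL a c x).filter (k < ·) := by
        have h1 : LL a c (x * yG a c k) =
            Lb a c (max (KK x) (k+1)) ((x : ∀ i, F i) * yy a c k) :=
          LL_eq a c _ (hsupp x k _ (le_max_left _ _) (by
            exact lt_of_lt_of_le (Nat.lt_succ_self k) (le_max_right _ _)))
        have h2 : LL a c x = Lb a c (max (KK x) (k+1)) x :=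
          LL_eq a c x (fun i hi => KK_spec x i ((le_max_left _ _).trans hi))
        rw [h1, h2]
        exact lemA a c k _ _ _ (fun i hi => yy_gt a c hi)
      have hcard : ∀ S : Finset ℕ, S.card ≤ (S.filter (k < ·)).card + (k + 1) := by
        intro S
        have h1 := Finset.card_filter_add_card_filter_not (s := S) (fun l => k < l)
        have h2 : (S.filter (fun l => ¬ k < l)).card ≤ k + 1 := by
          have h3 : S.filter (fun l => ¬ k < l) ⊆ Finset.range (k + 1) := by
            intro l hl
            rw [Finset.mem_filter] at hl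
            rw [Finset.mem_range]
            omega
          have h4 := Finset.card_le_card h3
          rwa [Finset.card_range] at h4
        omega
      have hle : ∀ S : Finset ℕ, (S.filter (k < ·)).card ≤ S.card := fun S =>
        Finset.card_filter_le _ _
      have e1 := hcard (LL a c x)
      have e2 := hcard (LL a c (x * yG a c k))
      have e3 := hle (LL a c x)
      have e4 := hle (LL a c (x * yG a c k))
      rw [hA] at e2 e4
      have e5 : τ (LL a c (x * yG a c k)).card = τ (LL a c x).card := hx _ (by omega) (by omega)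
      have e6 : ∀ S : Finset ℕ, S.filter (τ (LL a c x).card < ·) =
          (S.filter (k < ·)).filter (τ (LL a c x).card < ·) := by
        intro S
        rw [Finset.filter_filter]
        apply Finset.filter_congr
        intro l _
        constructor
        · intro h
          exact ⟨by omega, h⟩
        · intro h
          exact h.2
      show ((LL a c (x * yG a c k)).filter (τ (LL a c (x * yG a c k)).card < ·)).card =
        ((LL a c x).filter (τ (LL a c x).card < ·)).card
      rw [e5, e6, e6 (LL a c x), hA]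
    refine ⟨{g | Even (E g)}, ?_⟩
    intro hiff
    by_cases hpar : ∀ᶠ x in u, Even (E x)
    · have h1 : ∀ᶠ k in p, ∀ᶠ x in u, x * yG a c k ∈ {g | Even (E g)} := by
        filter_upwards [hEdia] with k hk
        filter_upwards [hk, hpar] with x hx1 hx2
        show Even (E (x * yG a c k))
        rw [hx1]
        exact hx2
      have h2 := hiff.2 h1
      obtain ⟨x, hx1, hx2, hx3⟩ := (h2.and (hEbox.and hpar)).exists
      obtain ⟨k, hk1, hk2⟩ := (hx1.and hx2).exists
      have hk1' : Even (E (x * yG a c k)) := hk1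
      rw [hk2] at hk1'
      rw [Nat.even_add_one] at hk1'
      exact hk1' hx3
    · have hpar' := Ultrafilter.eventually_not.2 hpar
      have h1 : ∀ᶠ x in u, ∀ᶠ k in p, x * yG a c k ∈ {g | Even (E g)} := by
        filter_upwards [hEbox, hpar'] with x hx1 hx2
        filter_upwards [hx1] with k hk
        show Even (E (x * yG a c k))
        rw [hk, Nat.even_add_one]
        exact hx2
      have h2 := hiff.1 h1
      obtain ⟨k, hk1, hk2⟩ := (h2.and hEdia).exists
      obtain ⟨x, hx1, hx2, hx3⟩ := (hk1.and (hk2.and hpar')).exists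
      have hx1' : Even (E (x * yG a c k)) := hx1
      rw [hx2] at hx1'
      exact hx3 hx1'

end X126.Dtc
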